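import Mathlib

/-!
# Coprime powerful numbers with a powerful sum

The identity `(x + y) ^ r = (x - y) ^ r + 2 ∑_{j odd} C(r, j) x ^ (r - j) y ^ j`.
-/

set_option autoImplicit false

namespace Pool.Agent.Y715.Pow

/-- `n` is positive and `p ^ r` divides `n` for all primes `p` dividing `n`. -/
def Powerful (r n : ℕ) : Prop := 0 < n ∧ ∀ p : ℕ, p.Prime → p ∣ n → p ^ r ∣ n

/-- `S` consists of `N` distinct `r`-powerful numbers without common divisor and its sum is
`r`-powerful. -/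
def IsSolution (r N : ℕ) (S : Finset ℕ) : Prop :=
  S.card = N ∧ S.gcd id = 1 ∧ (∀ s ∈ S, Powerful r s) ∧ Powerful r (∑ s ∈ S, s)

lemma sum_odd {M : Type} [AddCommMonoid M] (f : ℕ → M) (hf : ∀ m, Even m → f m = 0) (n : ℕ) :
    ∑ m ∈ Finset.range n, f m = ∑ i ∈ Finset.range (n / 2), f (2 * i + 1) := by
  induction n with
  | zero => simp
  | succ n ih =>
    rw [Finset.sum_range_succ, ih]
    rcases Nat.even_or_odd n with h | h
    · rw [hf n h, add_zero]
      obtain ⟨c, rfl⟩ := h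
      have h1 : (c + c + 1) / 2 = (c + c) / 2 := by omega
      rw [h1]
    · obtain ⟨c, rfl⟩ := h
      have h1 : (2 * c + 1 + 1) / 2 = (2 * c + 1) / 2 + 1 := by omega
      have h2 : (2 * c + 1) / 2 = c := by omega
      rw [h1, Finset.sum_range_succ, h2]

/-- the terms of the identity -/
def T (r x y k : ℕ) : ℕ := 2 * r.choose (2 * k + 1) * x ^ (r - (2 * k + 1)) * y ^ (2 * k + 1)

lemma identity (r z y : ℕ) :
    (z + y + y) ^ r = z ^ r + ∑ k ∈ Finset.range ((r + 1) / 2), T r (z + y) y k := by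
  have h1 : ((z + y + y : ℕ) : ℤ) ^ r - ((z : ℕ) : ℤ) ^ r =
      ∑ m ∈ Finset.range (r + 1), (((y : ℤ) ^ m - (-(y : ℤ)) ^ m) * ((z : ℤ) + y) ^ (r - m) *
        (r.choose m : ℤ)) := by
    have e1 : ((z + y + y : ℕ) : ℤ) = (y : ℤ) + ((z : ℤ) + y) := by push_cast; ring
    have e2 : ((z : ℕ) : ℤ) = (-(y : ℤ)) + ((z : ℤ) + y) := by ring
    rw [e1, add_pow]
    conv_lhs => rw [e2]
    rw [add_pow (-(y : ℤ)), ← Finset.sum_sub_distrib]
    refine Finset.sum_congr rfl fun m _ => ?_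
    have e3 : -(y : ℤ) + (z + y) = z := by ring
    rw [e3]
    ring
  rw [sum_odd _ (fun m hm => by rw [hm.neg_pow, sub_self, zero_mul, zero_mul])] at h1
  have h2 : ∀ k, ((y : ℤ) ^ (2 * k + 1) - (-(y : ℤ)) ^ (2 * k + 1)) *
      ((z : ℤ) + y) ^ (r - (2 * k + 1)) * (r.choose (2 * k + 1) : ℤ) = (T r (z + y) y k : ℤ) := by
    intro k
    have h3 : Odd (2 * k + 1) := ⟨k, rfl⟩
    rw [h3.neg_pow]
    unfold T
    push_cast
    ring
  rw [Finset.sum_congr rfl (fun k _ => h2 k)] at h1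
  have h3 : ((z + y + y : ℕ) : ℤ) ^ r = (z : ℤ) ^ r +
      ∑ k ∈ Finset.range ((r + 1) / 2), (T r (z + y) y k : ℤ) := by
    rw [← h1]
    ring
  exact_mod_cast h3

/-! ### The numbers `x` and `y` -/

/-- an odd number divisible by all odd primes up to `r` -/
def PP (r : ℕ) : ℕ := ∏ i ∈ Finset.range r, (2 * i + 3)

lemma PP_odd (r : ℕ) : Odd (PP r) := by
  unfold PP
  induction r with
  | zero => simp
  | succ r ih =>
    rw [Finset.prod_range_succ]
    exact ih.mul ⟨r + 1, by ring⟩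

lemma dvd_PP {r p : ℕ} (hp : p.Prime) (h2 : p ≠ 2) (hr : p ≤ r) : p ∣ PP r := by
  have h3 : Odd p := hp.odd_of_ne_two h2
  obtain ⟨c, hc⟩ := h3
  have h4 := hp.two_le
  have h5 : p = 2 * (c - 1) + 3 := by omega
  rw [h5]
  exact Finset.dvd_prod_of_mem (fun i => 2 * i + 3) (Finset.mem_range.2 (by omega))

lemma three_dvd {r : ℕ} (hr : 0 < r) : 3 ∣ PP r :=
  Finset.dvd_prod_of_mem (fun i => 2 * i + 3) (Finset.mem_range.2 hr)

/-- the number `w` -/
def W (r a : ℕ) : ℕ := PP r ^ (r + a)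

lemma W_odd (r a : ℕ) : Odd (W r a) := (PP_odd r).pow

lemma le_W {r a : ℕ} (hr : 0 < r) : 2 ^ r * 2 ^ a ≤ W r a := by
  unfold W
  rw [← pow_add]
  have h1 : 3 ≤ PP r := Nat.le_of_dvd (PP_odd r).pos (three_dvd hr)
  exact Nat.pow_le_pow_left (by omega) _

lemma good_pow {r a p : ℕ} (_hr : 0 < r) (hp : p ∣ PP r) : p ^ r ∣ W r a := by
  unfold W
  exact (pow_dvd_pow_of_dvd hp r).trans (pow_dvd_pow _ (by omega))

/-- a prime dividing `3 ^ e w` divides `PP r` -/
lemma dvd_of_X {r a e p : ℕ} (hr : 0 < r) (hp : p.Prime) (h : p ∣ 3 ^ e * W r a) : p ∣ PP r := by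
  rcases hp.dvd_mul.1 h with h1 | h1
  · have h2 := hp.dvd_of_dvd_pow h1
    rw [(Nat.prime_dvd_prime_iff_eq hp Nat.prime_three).1 h2]
    exact three_dvd hr
  · exact hp.dvd_of_dvd_pow h1

lemma good_of_choose {r k p : ℕ} (hp : p.Prime) (hk : k ≤ r) (h : p ∣ r.choose k) :
    p = 2 ∨ p ∣ PP r := by
  by_cases h2 : p = 2
  · exact Or.inl h2
  · refine Or.inr (dvd_PP hp h2 ?_)
    have h3 : r.choose k ∣ r.factorial :=
      ⟨k.factorial * (r - k).factorial, by rw [← Nat.choose_mul_factorial_mul_factorial hk]; ring⟩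
    exact (hp.dvd_factorial).1 (h.trans h3)

lemma powerful_T {r a e k : ℕ} (hr : 0 < r) (ha : r ≤ a) (hk : 2 * k + 1 ≤ r) :
    Powerful r (T r (3 ^ e * W r a) (2 ^ a) k) := by
  have hW : 0 < W r a := (W_odd r a).pos
  have hy2 : 2 ^ r ∣ T r (3 ^ e * W r a) (2 ^ a) k := by
    unfold T
    refine Dvd.dvd.mul_left ?_ _
    exact (pow_dvd_pow 2 ha).trans (dvd_pow_self _ (by omega))
  refine ⟨?_, fun p hp h => ?_⟩
  · unfold T
    have := Nat.choose_pos hk
    positivity
  · by_cases h2 : p = 2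
    · rw [h2]; exact hy2
    · have hP : p ∣ PP r ∧ (r - (2 * k + 1) ≠ 0 ∨ False) := by
        unfold T at h
        have hy : ¬ p ∣ (2 ^ a) ^ (2 * k + 1) := fun h3 => h2
          ((Nat.prime_dvd_prime_iff_eq hp Nat.prime_two).1
            (hp.dvd_of_dvd_pow (hp.dvd_of_dvd_pow h3)))
        rcases Nat.eq_zero_or_pos (r - (2 * k + 1)) with h0 | h0
        · exfalso
          have h4 : 2 * k + 1 = r := by omega
          rw [h0, pow_zero, mul_one, h4, Nat.choose_self, mul_one] at h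
          rcases hp.dvd_mul.1 h with h5 | h5
          · exact h2 ((Nat.prime_dvd_prime_iff_eq hp Nat.prime_two).1 h5)
          · rw [h4] at hy
            exact hy h5
        · refine ⟨?_, Or.inl (by omega)⟩
          rcases hp.dvd_mul.1 h with h3 | h3
          · rcases hp.dvd_mul.1 h3 with h4 | h4
            · rcases hp.dvd_mul.1 h4 with h5 | h5
              · exact absurd ((Nat.prime_dvd_prime_iff_eq hp Nat.prime_two).1 h5) h2
              · exact (good_of_choose hp hk h5).resolve_left h2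
            · exact dvd_of_X hr hp (hp.dvd_of_dvd_pow h4)
          · exact absurd h3 hy
      have h0 : r - (2 * k + 1) ≠ 0 := by
        rcases hP.2 with h | h
        · exact h
        · exact h.elim
      unfold T
      refine Dvd.dvd.mul_right (Dvd.dvd.mul_left ?_ _) _
      exact ((good_pow hr hP.1).trans (Dvd.intro_left _ rfl)).trans (dvd_pow_self _ h0)

/-- the first term divided by `3 ^ e` -/
def A (r a e : ℕ) : ℕ := 2 * r * (3 ^ e * W r a) ^ (r - 2) * W r a * 2 ^ a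

lemma T_zero {r a e : ℕ} (hr : 2 ≤ r) :
    T r (3 ^ e * W r a) (2 ^ a) 0 = A r a e * 3 ^ e := by
  unfold T A
  obtain ⟨s, rfl⟩ := Nat.exists_eq_add_of_le hr
  have h1 : 2 + s - (2 * 0 + 1) = s + 1 := by omega
  have h2 : 2 + s - 2 = s := by omega
  rw [h1, h2, pow_succ]
  simp only [mul_zero, zero_add, Nat.choose_one_right, pow_one]
  ring

lemma dvd_A {r a e l p c : ℕ} (hr : 2 ≤ r) (hp : p.Prime) (h2 : p ≠ 2) (hc : c = 1 ∨ c = 2)
    (h : p ∣ A r a e * (c * 3 ^ l)) : p ∣ PP r := by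
  rcases hp.dvd_mul.1 h with h3 | h3
  · unfold A at h3
    rcases hp.dvd_mul.1 h3 with h4 | h4
    · rcases hp.dvd_mul.1 h4 with h5 | h5
      · rcases hp.dvd_mul.1 h5 with h6 | h6
        · rcases hp.dvd_mul.1 h6 with h7 | h7
          · exact absurd ((Nat.prime_dvd_prime_iff_eq hp Nat.prime_two).1 h7) h2
          · exact dvd_PP hp h2 (Nat.le_of_dvd (by omega) h7)
        · exact dvd_of_X (by omega) hp (hp.dvd_of_dvd_pow h6)
      · exact hp.dvd_of_dvd_pow h5
    · exact absurd ((Nat.prime_dvd_prime_iff_eq hp Nat.prime_two).1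
        (hp.dvd_of_dvd_pow h4)) h2
  · rcases hp.dvd_mul.1 h3 with h4 | h4
    · rcases hc with rfl | rfl
      · exact absurd (Nat.dvd_one.1 h4) hp.ne_one
      · exact absurd ((Nat.prime_dvd_prime_iff_eq hp Nat.prime_two).1 h4) h2
    · rw [(Nat.prime_dvd_prime_iff_eq hp Nat.prime_three).1 (hp.dvd_of_dvd_pow h4)]
      exact three_dvd (by omega)

lemma powerful_A {r a e l : ℕ} (hr : 2 ≤ r) (ha : r ≤ a) (c : ℕ) (hc : c = 1 ∨ c = 2) :
    Powerful r (A r a e * (c * 3 ^ l)) := by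
  have hW : 0 < W r a := (W_odd r a).pos
  refine ⟨?_, fun p hp h => ?_⟩
  · unfold A
    rcases hc with rfl | rfl <;> positivity
  · by_cases h2 : p = 2
    · rw [h2]
      refine Dvd.dvd.mul_right ?_ _
      unfold A
      exact (pow_dvd_pow 2 ha).trans (Dvd.intro_left _ rfl)
    · have hP : p ∣ PP r := dvd_A hr hp h2 hc h
      refine Dvd.dvd.mul_right ?_ _
      unfold A
      exact (good_pow (by omega) hP).mul_left _ |>.mul_right _

/-! ### The solutions -/

/-- the even elements of the solution, in increasing order; `h = (r + 1) / 2` -/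
def g (r a e h i : ℕ) : ℕ :=
  if i + 1 < h then T r (3 ^ e * W r a) (2 ^ a) (h - 1 - i)
  else if i + 1 = h then A r a e * (1 * 3 ^ 0) else A r a e * (2 * 3 ^ (i - h))

lemma T_lt {r a e k : ℕ} (hr : 0 < r) (hk : 2 * (k + 1) + 1 ≤ r) :
    T r (3 ^ e * W r a) (2 ^ a) (k + 1) < T r (3 ^ e * W r a) (2 ^ a) k := by
  have hW : 0 < W r a := (W_odd r a).pos
  have hx : W r a ≤ 3 ^ e * W r a := Nat.le_mul_of_pos_left _ (by positivity)
  have hxy : 2 ^ r * 2 ^ a ≤ 3 ^ e * W r a := (le_W hr).trans hx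
  generalize 3 ^ e * W r a = x at *
  have hx0 : 0 < x := lt_of_lt_of_le (by positivity) hxy
  unfold T
  obtain ⟨s, hs⟩ := Nat.exists_eq_add_of_le hk
  have h1 : r - (2 * (k + 1) + 1) = s := by omega
  have h2 : r - (2 * k + 1) = s + 2 := by omega
  rw [h1, h2]
  have h3 : r.choose (2 * (k + 1) + 1) ≤ 2 ^ r := by
    rw [← Nat.sum_range_choose]
    exact Finset.single_le_sum (f := fun m => r.choose m) (fun _ _ => Nat.zero_le _)
      (Finset.mem_range.2 (by omega))
  have h4 : 0 < r.choose (2 * k + 1) := Nat.choose_pos (by omega)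
  have h5 : 2 ^ r * (2 ^ a) ^ 2 < x ^ 2 := by
    calc 2 ^ r * (2 ^ a) ^ 2 < 2 ^ r * 2 ^ r * (2 ^ a) ^ 2 := by
          have : 1 < 2 ^ r := Nat.one_lt_two_pow (by omega)
          have h6 : 0 < 2 ^ r * (2 ^ a) ^ 2 := by positivity
          nlinarith
      _ = (2 ^ r * 2 ^ a) ^ 2 := by ring
      _ ≤ x ^ 2 := Nat.pow_le_pow_left hxy 2
  calc 2 * r.choose (2 * (k + 1) + 1) * x ^ s * (2 ^ a) ^ (2 * (k + 1) + 1)
      ≤ 2 * 2 ^ r * x ^ s * (2 ^ a) ^ (2 * (k + 1) + 1) := by gcongr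
    _ = (2 * x ^ s * (2 ^ a) ^ (2 * k + 1)) * (2 ^ r * (2 ^ a) ^ 2) := by ring
    _ < (2 * x ^ s * (2 ^ a) ^ (2 * k + 1)) * x ^ 2 := by
        apply Nat.mul_lt_mul_of_pos_left h5
        positivity
    _ ≤ r.choose (2 * k + 1) * ((2 * x ^ s * (2 ^ a) ^ (2 * k + 1)) * x ^ 2) :=
        Nat.le_mul_of_pos_left _ h4
    _ = 2 * r.choose (2 * k + 1) * x ^ (s + 2) * (2 ^ a) ^ (2 * k + 1) := by ring

lemma T_lt_A {r a e : ℕ} (hr : 3 ≤ r) : T r (3 ^ e * W r a) (2 ^ a) 1 < A r a e := by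
  have hW : 0 < W r a := (W_odd r a).pos
  have hx : W r a ≤ 3 ^ e * W r a := Nat.le_mul_of_pos_left _ (by positivity)
  have hw := le_W (r := r) (a := a) (by omega)
  unfold A
  generalize 3 ^ e * W r a = x at *
  generalize W r a = w at *
  unfold T
  obtain ⟨s, rfl⟩ := Nat.exists_eq_add_of_le hr
  have h1 : 3 + s - (2 * 1 + 1) = s := by omega
  have h2 : 3 + s - 2 = s + 1 := by omega
  rw [h1, h2]
  have h3 : (3 + s).choose (2 * 1 + 1) ≤ 2 ^ (3 + s) := by
    rw [← Nat.sum_range_choose]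
    exact Finset.single_le_sum (f := fun m => (3 + s).choose m) (fun _ _ => Nat.zero_le _)
      (Finset.mem_range.2 (by omega))
  have hy : 2 ^ a ≤ w := le_trans (Nat.le_mul_of_pos_left _ (by positivity)) hw
  have h5 : 2 ^ (3 + s) * (2 ^ a) ^ 2 ≤ x * w := by
    calc 2 ^ (3 + s) * (2 ^ a) ^ 2 = (2 ^ (3 + s) * 2 ^ a) * 2 ^ a := by ring
      _ ≤ x * w := Nat.mul_le_mul (hw.trans hx) hy
  have hx0 : 0 < x := hW.trans_le hx
  calc 2 * (3 + s).choose (2 * 1 + 1) * x ^ s * (2 ^ a) ^ (2 * 1 + 1)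
      ≤ 2 * 2 ^ (3 + s) * x ^ s * (2 ^ a) ^ (2 * 1 + 1) := by gcongr
    _ = (2 * x ^ s * 2 ^ a) * (2 ^ (3 + s) * (2 ^ a) ^ 2) := by ring
    _ ≤ (2 * x ^ s * 2 ^ a) * (x * w) := Nat.mul_le_mul_left _ h5
    _ < (3 + s) * ((2 * x ^ s * 2 ^ a) * (x * w)) := by
        have h6 : 0 < (2 * x ^ s * 2 ^ a) * (x * w) := by positivity
        nlinarith
    _ = 2 * (3 + s) * x ^ (s + 1) * w * 2 ^ a := by ring

lemma A_pos {r a e : ℕ} (hr : 0 < r) : 0 < A r a e := by
  have hW : 0 < W r a := (W_odd r a).pos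
  unfold A
  positivity

lemma g_mono {r a e h : ℕ} (hr : 2 ≤ r) (hh : h = (r + 1) / 2) : StrictMono (g r a e h) := by
  apply strictMono_nat_of_lt_succ
  intro i
  have hA := A_pos (r := r) (a := a) (e := e) (by omega)
  unfold g
  by_cases h1 : i + 1 + 1 < h
  · rw [if_pos h1, if_pos (by omega)]
    have h2 : h - 1 - i = (h - 1 - (i + 1)) + 1 := by omega
    rw [h2]
    exact T_lt (by omega) (by omega)
  · rw [if_neg h1]
    by_cases h2 : i + 1 + 1 = h
    · rw [if_pos h2, if_pos (by omega)]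
      have h3 : h - 1 - i = 1 := by omega
      rw [h3]
      have := T_lt_A (r := r) (a := a) (e := e) (by omega)
      simpa using this
    · rw [if_neg h2, if_neg (by omega)]
      by_cases h3 : i + 1 = h
      · rw [if_pos h3]
        have h4 : i + 1 - h = 0 := by omega
        rw [h4]
        exact Nat.mul_lt_mul_of_pos_left (by norm_num) hA
      · rw [if_neg h3]
        have h4 : i + 1 - h = (i - h) + 1 := by omega
        rw [h4]
        apply Nat.mul_lt_mul_of_pos_left _ hA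
        apply Nat.mul_lt_mul_of_pos_left _ (by norm_num)
        exact Nat.pow_lt_pow_right (by norm_num) (by omega)

lemma geom (b e : ℕ) : b * (1 * 3 ^ 0) + ∑ l ∈ Finset.range e, b * (2 * 3 ^ l) = b * 3 ^ e := by
  induction e with
  | zero => simp
  | succ e ih =>
    rw [Finset.sum_range_succ, ← add_assoc, ih]
    ring

lemma sum_g {r a e h N : ℕ} (hr : 2 ≤ r) (hh : h = (r + 1) / 2) (he : N = h + e) :
    ∑ i ∈ Finset.range N, g r a e h i =
      ∑ k ∈ Finset.range h, T r (3 ^ e * W r a) (2 ^ a) k := by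
  have h1 : N = (h - 1) + (e + 1) := by omega
  rw [h1, Finset.sum_range_add]
  have h2 : ∑ i ∈ Finset.range (h - 1), g r a e h i =
      ∑ i ∈ Finset.range (h - 1), T r (3 ^ e * W r a) (2 ^ a) (i + 1) := by
    rw [← Finset.sum_range_reflect (fun j => T r (3 ^ e * W r a) (2 ^ a) (j + 1))]
    refine Finset.sum_congr rfl fun i hi => ?_
    rw [Finset.mem_range] at hi
    unfold g
    rw [if_pos (by omega)]
    congr 1
    omega
  have h3 : ∑ i ∈ Finset.range (e + 1), g r a e h (h - 1 + i) =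
      T r (3 ^ e * W r a) (2 ^ a) 0 := by
    rw [T_zero (by omega), ← geom (A r a e) e, Finset.sum_range_succ', add_comm]
    congr 1
    · unfold g
      rw [if_neg (by omega), if_pos (by omega)]
    · refine Finset.sum_congr rfl fun l _ => ?_
      unfold g
      rw [if_neg (by omega), if_neg (by omega)]
      congr 3
      omega
  have h4 : h = (h - 1) + 1 := by omega
  rw [h2, h3]
  conv_rhs => rw [h4]
  rw [Finset.sum_range_succ']

lemma g_even (r a e h i : ℕ) : Even (g r a e h i) := by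
  rw [even_iff_two_dvd]
  unfold g T A
  split_ifs
  · exact (((Dvd.intro _ rfl).mul_right _).mul_right _)
  · exact (((((Dvd.intro _ rfl).mul_right _).mul_right _).mul_right _).mul_right _)
  · exact (((((Dvd.intro _ rfl).mul_right _).mul_right _).mul_right _).mul_right _)

lemma g_powerful {r a e h i : ℕ} (hr : 2 ≤ r) (ha : r ≤ a) (hh : h = (r + 1) / 2) :
    Powerful r (g r a e h i) := by
  unfold g
  split_ifs
  · exact powerful_T (by omega) ha (by omega)
  · exact powerful_A (by omega) ha _ (Or.inl rfl)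
  · exact powerful_A (by omega) ha _ (Or.inr rfl)

/-- For all `r ≥ 2`, `N ≥ ⌈r / 2⌉ + 1` and `a ≥ r` there is a solution with sum larger than
`a`. -/
theorem exists_solution (r N a : ℕ) (hr : 2 ≤ r) (hN : (r + 1) / 2 + 1 ≤ N) (ha : r ≤ a) :
    ∃ S : Finset ℕ, IsSolution r N S ∧ a < ∑ s ∈ S, s := by
  obtain ⟨h, hh⟩ : ∃ h, h = (r + 1) / 2 := ⟨_, rfl⟩
  obtain ⟨e, he⟩ : ∃ e, N - 1 = h + e := ⟨N - 1 - h, by omega⟩
  have hW : 0 < W r a := (W_odd r a).pos
  obtain ⟨x, hx⟩ : ∃ x, x = 3 ^ e * W r a := ⟨_, rfl⟩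
  have hxo : Odd x := by
    rw [hx]
    exact (Odd.pow (by decide)).mul (W_odd r a)
  have hyx : 2 ^ a < x := by
    have h1 : W r a ≤ x := by rw [hx]; exact Nat.le_mul_of_pos_left _ (by positivity)
    have h2 := (le_W (r := r) (a := a) (by omega)).trans h1
    have h3 : 1 < 2 ^ r := Nat.one_lt_two_pow (by omega)
    have h4 : 0 < 2 ^ a := by positivity
    nlinarith
  obtain ⟨z, hz⟩ : ∃ z, x = z + 2 ^ a := ⟨x - 2 ^ a, by omega⟩
  have hz0 : 0 < z := by omega
  have hye : Even (2 ^ a) := (Nat.even_pow' (by omega)).2 even_two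
  have hzo : Odd z := by
    rw [hz] at hxo
    exact (Nat.odd_add.1 hxo).2 hye
  have hinj : Set.InjOn (g r a e h) (Finset.range (N - 1) : Finset ℕ) :=
    (g_mono (by omega) hh).injective.injOn
  have hnot : z ^ r ∉ (Finset.range (N - 1)).image (g r a e h) := by
    intro hmem
    rw [Finset.mem_image] at hmem
    obtain ⟨i, _, hi⟩ := hmem
    have h1 := g_even r a e h i
    rw [hi] at h1
    exact (Nat.not_even_iff_odd.2 hzo.pow) h1
  have hsum : ∑ s ∈ insert (z ^ r) ((Finset.range (N - 1)).image (g r a e h)), s =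
      (x + 2 ^ a) ^ r := by
    rw [Finset.sum_insert hnot, Finset.sum_image hinj, sum_g hr hh he, ← hx, hz, identity r z,
      hh]
  refine ⟨insert (z ^ r) ((Finset.range (N - 1)).image (g r a e h)), ⟨?_, ?_, ?_, ?_⟩, ?_⟩
  · rw [Finset.card_insert_of_notMem hnot, Finset.card_image_of_injOn hinj, Finset.card_range]
    omega
  · by_contra hne
    obtain ⟨p, hp, hpd⟩ := Nat.exists_prime_and_dvd hne
    have h1 : p ∣ z := hp.dvd_of_dvd_pow (hpd.trans (Finset.gcd_dvd (Finset.mem_insert_self _ _)))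
    have h2 : p ∣ g r a e h 0 := hpd.trans (Finset.gcd_dvd (Finset.mem_insert_of_mem
      (Finset.mem_image.2 ⟨0, Finset.mem_range.2 (by omega), rfl⟩)))
    by_cases hp2 : p = 2
    · rw [hp2] at h1
      exact (Nat.not_even_iff_odd.2 hzo) (even_iff_two_dvd.2 h1)
    · have h3 : p ∣ PP r := by
        unfold g at h2
        split_ifs at h2 with hc
        · unfold T at h2
          rcases hp.dvd_mul.1 h2 with h4 | h4
          · rcases hp.dvd_mul.1 h4 with h5 | h5
            · rcases hp.dvd_mul.1 h5 with h6 | h6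
              · exact absurd ((Nat.prime_dvd_prime_iff_eq hp Nat.prime_two).1 h6) hp2
              · exact (good_of_choose hp (by omega) h6).resolve_left hp2
            · exact dvd_of_X (by omega) hp (hp.dvd_of_dvd_pow h5)
          · exact absurd ((Nat.prime_dvd_prime_iff_eq hp Nat.prime_two).1
              (hp.dvd_of_dvd_pow (hp.dvd_of_dvd_pow h4))) hp2
        · exact dvd_A (by omega) hp hp2 (Or.inl rfl) h2
        · exact dvd_A (by omega) hp hp2 (Or.inr rfl) h2
      have h4 : p ∣ x := by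
        rw [hx]
        exact ((dvd_pow_self p (by omega)).trans (good_pow (a := a) (by omega) h3)).mul_left _
      rw [hz] at h4
      have h5 : p ∣ 2 ^ a := (Nat.dvd_add_right h1).1 h4
      exact hp2 ((Nat.prime_dvd_prime_iff_eq hp Nat.prime_two).1 (hp.dvd_of_dvd_pow h5))
  · intro s hs
    rw [Finset.mem_insert, Finset.mem_image] at hs
    rcases hs with rfl | ⟨i, _, rfl⟩
    · exact ⟨by positivity, fun p hp h => pow_dvd_pow_of_dvd (hp.dvd_of_dvd_pow h) r⟩
    · exact g_powerful (by omega) ha hh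
  · rw [hsum]
    exact ⟨by positivity, fun p hp h => pow_dvd_pow_of_dvd (hp.dvd_of_dvd_pow h) r⟩
  · rw [hsum]
    have h1 : a < 2 ^ a := Nat.lt_two_pow_self
    calc a < x + 2 ^ a := by omega
      _ ≤ (x + 2 ^ a) ^ r := Nat.le_self_pow (by omega) _

/-- The solution of Cambie for `r = 5`. -/
theorem solution_five : IsSolution 5 3 {2 ^ 8 * 3 ^ 10 * 5 ^ 7, 2 ^ 12 * 23 ^ 6, 11 ^ 5 * 13 ^ 5} := by
  have hp : ∀ {p q : ℕ}, p.Prime → q.Prime → ∀ {n : ℕ}, p ∣ q ^ n → p = q :=
    fun hp hq _ h => (Nat.prime_dvd_prime_iff_eq hp hq).1 (hp.dvd_of_dvd_pow h)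
  have p3 : Nat.Prime 3 := by norm_num
  have p5 : Nat.Prime 5 := by norm_num
  have p11 : Nat.Prime 11 := by norm_num
  have p13 : Nat.Prime 13 := by norm_num
  have p23 : Nat.Prime 23 := by norm_num
  have p61 : Nat.Prime 61 := by norm_num
  have hsum : ∑ s ∈ ({2 ^ 8 * 3 ^ 10 * 5 ^ 7, 2 ^ 12 * 23 ^ 6, 11 ^ 5 * 13 ^ 5} : Finset ℕ), s =
      3 ^ 7 * 61 ^ 5 := by
    rw [Finset.sum_insert (by norm_num), Finset.sum_insert (by norm_num), Finset.sum_singleton]
    norm_num
  refine ⟨?_, ?_, ?_, ?_⟩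
  · rw [Finset.card_insert_of_notMem (by norm_num), Finset.card_insert_of_notMem (by norm_num),
      Finset.card_singleton]
  · rw [Finset.gcd_insert, Finset.gcd_insert, Finset.gcd_singleton]
    simp only [id]
    norm_num [gcd_eq_nat_gcd]
  · intro s hs
    simp only [Finset.mem_insert, Finset.mem_singleton] at hs
    rcases hs with rfl | rfl | rfl
    · refine ⟨by norm_num, fun p h h1 => ?_⟩
      rcases h.dvd_mul.1 h1 with h2 | h2
      · rcases h.dvd_mul.1 h2 with h3 | h3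
        · rw [hp h Nat.prime_two h3]; norm_num
        · rw [hp h p3 h3]; norm_num
      · rw [hp h p5 h2]; norm_num
    · refine ⟨by norm_num, fun p h h1 => ?_⟩
      rcases h.dvd_mul.1 h1 with h2 | h2
      · rw [hp h Nat.prime_two h2]; norm_num
      · rw [hp h p23 h2]; norm_num
    · refine ⟨by norm_num, fun p h h1 => ?_⟩
      rcases h.dvd_mul.1 h1 with h2 | h2
      · rw [hp h p11 h2]; norm_num
      · rw [hp h p13 h2]; norm_num
  · rw [hsum]
    refine ⟨by norm_num, fun p h h1 => ?_⟩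
    rcases h.dvd_mul.1 h1 with h2 | h2
    · rw [hp h p3 h2]; norm_num
    · rw [hp h p61 h2]; norm_num

theorem main : (∀ r, 5 ≤ r → ∃ S, IsSolution r (r - 2) S) ∧
    ∀ r N, 2 ≤ r → (r + 1) / 2 + 1 ≤ N → {S | IsSolution r N S}.Infinite := by
  constructor
  · intro r hr
    rcases Nat.lt_or_ge 5 r with h | h
    · obtain ⟨S, hS, _⟩ := exists_solution r (r - 2) r (by omega) (by omega) le_rfl
      exact ⟨S, hS⟩
    · obtain rfl : r = 5 := by omega
      exact ⟨_, solution_five⟩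
  · intro r N hr hN
    apply Set.Infinite.of_image (fun S : Finset ℕ => ∑ s ∈ S, s)
    apply Set.infinite_of_forall_exists_gt
    intro b
    obtain ⟨S, hS, hb⟩ := exists_solution r N (r + b) hr hN (by omega)
    exact ⟨_, ⟨S, hS, rfl⟩, by simp only; omega⟩

end Pool.Agent.Y715.Pow
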