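import Pool.Agent.TH936.PU.Chr

/-!
# Distribution relations including the constant
-/

set_option autoImplicit false

open Filter
open scoped Topology PeriodPair

namespace Pool.Agent.Y715.Dist

open H667R3 Pool.Agent.W192.HK Pool.Agent.TH936.CM Pool.Agent.TH936.PU

variable {L : PeriodPair} {R : Subring ℂ} {Ω : ℂ}

/-- the sum over the residue classes -/
noncomputable def Sm (c : R) (F : R → ℂ) : ℂ := ∑ r ∈ rp c, F r

lemma Sm_eq (c : R) [Fintype (R ⧸ sp c)] (F : R → ℂ) : Sm c F = ∑ x : R ⧸ sp c, F x.out :=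
  (rp_sum c F).symm

lemma Sm_add (c : R) (F G : R → ℂ) : Sm c (fun x => F x + G x) = Sm c F + Sm c G :=
  Finset.sum_add_distrib

lemma Sm_mul_left (c : R) (a : ℂ) (F : R → ℂ) : Sm c (fun x => a * F x) = a * Sm c F :=
  (Finset.mul_sum _ _ _).symm

lemma Sm_shift {c : R} (hfin : Finite (R ⧸ sp c)) (t : R) {F : R → ℂ}
    (hF : ∀ x y, x - y ∈ sp c → F x = F y) : Sm c (fun x => F (t + x)) = Sm c F := by
  have : Fintype (R ⧸ sp c) := Fintype.ofFinite _
  rw [Sm_eq, Sm_eq]
  have hb : Function.Bijective (fun y : R ⧸ sp c => Ideal.Quotient.mk (sp c) (t + y.out)) := by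
    have e1 : (fun y : R ⧸ sp c => Ideal.Quotient.mk (sp c) (t + y.out)) =
        fun y => Ideal.Quotient.mk (sp c) t + y := by
      funext y
      rw [map_add, Ideal.Quotient.mk_out]
    rw [e1]
    exact (Equiv.addLeft (Ideal.Quotient.mk (sp c) t)).bijective
  exact (sum_rep _ hb F hF).symm

lemma Sm_mul {a c : R} (hc : c ≠ 0) (hfin : ∀ q : R, q ≠ 0 → Finite (R ⧸ sp q)) (ha : a ≠ 0)
    {F : R → ℂ} (hF : ∀ x y, x - y ∈ sp (a * c) → F x = F y) :
    Sm (a * c) F = Sm c (fun x => Sm a (fun t => F (x + c * t))) := by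
  have : Fintype (R ⧸ sp c) := @Fintype.ofFinite _ (hfin c hc)
  have : Fintype (R ⧸ sp a) := @Fintype.ofFinite _ (hfin a ha)
  have : Fintype (R ⧸ sp (a * c)) := @Fintype.ofFinite _ (hfin _ (mul_ne_zero ha hc))
  rw [Sm_eq, sum_rep _ (bij_mul (a := a) hc) F hF, Fintype.sum_prod_type, Sm_eq]
  refine Finset.sum_congr rfl fun x _ => ?_
  rw [Sm_eq]

open Classical in
lemma Sm_div {a c : R} (hc : c ≠ 0) (hfin : ∀ q : R, q ≠ 0 → Finite (R ⧸ sp q)) (ha : a ≠ 0)
    {F : R → ℂ} (hF : ∀ x y, x - y ∈ sp (a * c) → F x = F y) :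
    Sm (a * c) (fun x => if x ∈ sp a then F x else 0) = Sm c (fun x => F (a * x)) := by
  have hsub : ∀ x y : R, x - y ∈ sp (a * c) → (x ∈ sp a ↔ y ∈ sp a) := by
    intro x y h
    have h1 : x - y ∈ sp a := by
      rw [Ideal.mem_span_singleton'] at h ⊢
      obtain ⟨b, hb⟩ := h
      exact ⟨b * c, by linear_combination hb⟩
    constructor
    · intro h2
      have := sub_mem h2 h1
      rwa [sub_sub_cancel] at this
    · intro h2
      have := add_mem h1 h2
      rwa [sub_add_cancel] at this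
  have h1 : Sm (a * c) (fun x => if x ∈ sp a then F x else 0) =
      Sm (c * a) (fun x => if x ∈ sp a then F x else 0) := by rw [mul_comm]
  rw [h1, Sm_mul ha hfin hc]
  swap
  · intro x y h
    rw [mul_comm] at h
    show (if x ∈ sp a then F x else 0) = if y ∈ sp a then F y else 0
    rw [hF x y h]
    by_cases h2 : x ∈ sp a
    · rw [if_pos h2, if_pos ((hsub x y h).1 h2)]
    · rw [if_neg h2, if_neg (fun h3 => h2 ((hsub x y h).2 h3))]
  have : Fintype (R ⧸ sp a) := @Fintype.ofFinite _ (hfin a ha)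
  rw [Sm_eq]
  have key : ∀ x : R ⧸ sp a, Sm c (fun t => if x.out + a * t ∈ sp a then F (x.out + a * t) else 0) =
      if x = 0 then Sm c (fun x => F (a * x)) else 0 := by
    intro x
    have h3 : ∀ t : R, x.out + a * t ∈ sp a ↔ x = 0 := by
      intro t
      have h4 : a * t ∈ sp a := Ideal.mem_span_singleton'.2 ⟨t, mul_comm _ _⟩
      rw [add_mem_cancel_right h4]
      constructor
      · intro h5
        rw [← Ideal.Quotient.mk_out x]
        exact Ideal.Quotient.eq_zero_iff_mem.2 h5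
      · rintro rfl
        have := out_mk (sp a) (0 : R)
        rw [map_zero, zero_sub] at this
        exact neg_mem_iff.1 this
    by_cases hx : x = 0
    · rw [if_pos hx]
      have h5 := (h3 0).2 hx
      rw [mul_zero, add_zero, Ideal.mem_span_singleton'] at h5
      obtain ⟨s, hs⟩ := h5
      have h6 : ∀ t : R, (if x.out + a * t ∈ sp a then F (x.out + a * t) else 0) =
          F (a * (s + t)) := by
        intro t
        rw [if_pos ((h3 t).2 hx), ← hs]
        congr 1
        ring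
      simp only [h6]
      refine Sm_shift (hfin c hc) s (F := fun y => F (a * y)) fun y z hyz => hF _ _ ?_
      rw [Ideal.mem_span_singleton'] at hyz ⊢
      obtain ⟨b, hb⟩ := hyz
      exact ⟨b, by linear_combination a * hb⟩
    · rw [if_neg hx]
      refine Finset.sum_eq_zero fun t _ => if_neg fun h7 => hx ((h3 t).1 h7)
  rw [Finset.sum_congr rfl fun x _ => key x, Finset.sum_ite_eq' , if_pos (Finset.mem_univ _)]

/-- the limits of the sums -/
noncomputable def Ph (L : PeriodPair) (Ω : ℂ) (f : R) [Fintype (R ⧸ sp f)] (e : R → ℂ) (Ef : ℂ)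
    (c x : R) : ℂ :=
  open Classical in if x ∈ sp c then Ef else HH L Ω f e (Ω * x / c) + Ef

variable {f : R} [Fintype (R ⧸ sp f)] {e : R → ℂ} {Ef : ℂ}

lemma Ph_of_mem {c x : R} (h : x ∈ sp c) : Ph L Ω f e Ef c x = Ef := by
  unfold Ph
  rw [if_pos h]

lemma Ph_of_notMem {c x : R} (h : x ∉ sp c) :
    Ph L Ω f e Ef c x = HH L Ω f e (Ω * x / c) + Ef := by
  unfold Ph
  rw [if_neg h]

lemma Ph_per (hL : IsLat L R Ω) {c : R} (hc : c ≠ 0) {x y : R} (h : x - y ∈ sp c) :
    Ph L Ω f e Ef c x = Ph L Ω f e Ef c y := by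
  by_cases hx : x ∈ sp c
  · have hy : y ∈ sp c := by
      have := sub_mem hx h
      rwa [sub_sub_cancel] at this
    rw [Ph_of_mem hx, Ph_of_mem hy]
  · have hy : y ∉ sp c := by
      intro hy
      apply hx
      have := add_mem h hy
      rwa [sub_add_cancel] at this
    rw [Ph_of_notMem hx, Ph_of_notMem hy]
    congr 1
    apply HH_per
    have := (div_mem_iff hL hc (x - y)).2 h
    convert this using 1
    push_cast
    ring

theorem lim_Ph (hL : IsLat L R Ω) (hf : f ≠ 0) {c : R} (hc : c ≠ 0) (hfc : IsCoprime f c)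
    (he : Eo f e) (h0 : Tendsto (fun δ : ℝ => ∑ y : R ⧸ sp f, e y.out *
      EE R Ω δ (Ω * y.out / f)) (𝓝[>] 0) (𝓝 Ef)) (x : R) :
    Tendsto (fun δ : ℝ => ∑ y : R ⧸ sp f, e y.out * EE R Ω δ (Ω * y.out / f + Ω * x / c))
      (𝓝[>] 0) (𝓝 (Ph L Ω f e Ef c x)) := by
  by_cases hx : x ∈ sp c
  · rw [Ph_of_mem hx]
    refine h0.congr fun δ => Finset.sum_congr rfl fun y _ => ?_
    congr 1
    symm
    apply EE_per hL
    rw [← div_mem_iff hL hc] at hx
    convert hx using 1
    ring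
  · rw [Ph_of_notMem hx]
    have h1 : Tendsto (fun δ : ℝ => (1 / 2) * ∑ y : R ⧸ sp f, e y.out *
        (EE R Ω δ (Ω * y.out / f + Ω * x / c) +
        EE R Ω δ (Ω * y.out / f - Ω * x / c) - 2 * EE R Ω δ (Ω * y.out / f)) +
      ∑ y : R ⧸ sp f, e y.out * EE R Ω δ (Ω * y.out / f)) (𝓝[>] 0)
        (𝓝 (HH L Ω f e (Ω * x / c) + Ef)) := by
      refine Tendsto.add ?_ h0
      unfold HH
      refine Tendsto.const_mul _ (tendsto_finsetSum _ fun y _ => ?_)
      by_cases hy : y.out ∈ sp f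
      · simp only [he.zero hy, zero_mul]
        exact tendsto_const_nhds
      · refine Tendsto.const_mul _ ?_
        have hw : Ω * y.out / f ∉ L.lattice := by rwa [div_mem_iff hL hf]
        have hu : Ω * x / c ∉ L.lattice := by rwa [div_mem_iff hL hc]
        have hn := cop_notMem hL hf hc hfc (z := y.out) hx
        exact lim_Dd hL hw hu hn.1 hn.2
    exact h1.congr fun δ => (inner_eq hL hf he δ (Ω * x / c)).symm

lemma tendsto_scale {a : R} (ha : a ≠ 0) : Tendsto (fun δ : ℝ => δ / Complex.normSq (a : ℂ))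
    (𝓝[>] 0) (𝓝[>] 0) := by
  have hnr : 0 < Complex.normSq (a : ℂ) := Complex.normSq_pos.2 (coe_ne ha)
  rw [tendsto_nhdsWithin_iff]
  constructor
  · have h7 : Continuous (fun δ : ℝ => δ / Complex.normSq (a : ℂ)) := by fun_prop
    have h8 := (h7.tendsto 0).mono_left (nhdsWithin_le_nhds (s := Set.Ioi 0))
    simpa using h8
  · filter_upwards [self_mem_nhdsWithin] with δ (hδ : 0 < δ)
    show 0 < δ / Complex.normSq (a : ℂ)
    positivity

/-- multiplication by `a` on the residue classes modulo `f` -/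
lemma sum_mul_bij {a : R} (hfa : IsCoprime f a) {F : R → ℂ}
    (hF : ∀ x y : R, x - y ∈ sp f → F x = F y) :
    ∑ y : R ⧸ sp f, F (a * y.out) = ∑ y : R ⧸ sp f, F y.out := by
  obtain ⟨u, w, huw⟩ := hfa
  have h1 : Ideal.Quotient.mk (sp f) w * Ideal.Quotient.mk (sp f) a = 1 := by
    rw [← map_mul, ← map_one (Ideal.Quotient.mk (sp f)), Ideal.Quotient.mk_eq_mk_iff_sub_mem,
      Ideal.mem_span_singleton']
    exact ⟨-u, by linear_combination -huw⟩
  have hu : IsUnit (Ideal.Quotient.mk (sp f) a) := IsUnit.of_mul_eq_one_right _ h1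
  obtain ⟨g, hg⟩ := hu
  have hb : Function.Bijective (fun y : R ⧸ sp f => Ideal.Quotient.mk (sp f) (a * y.out)) := by
    have e1 : (fun y : R ⧸ sp f => Ideal.Quotient.mk (sp f) (a * y.out)) =
        fun y => (g : R ⧸ sp f) * y := by
      funext y
      rw [map_mul, Ideal.Quotient.mk_out, hg]
    rw [e1]
    exact (Units.mulLeft g).bijective
  exact (sum_rep _ hb F hF).symm

/-- **The distribution relation.** -/
theorem dist_Ph (hL : IsLat L R Ω) (hfin : ∀ q : R, q ≠ 0 → Finite (R ⧸ sp q)) (hf : f ≠ 0)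
    {a c : R} (hc : c ≠ 0) (ha : a ≠ 0) (hfc : IsCoprime f c) (hfa : IsCoprime f a)
    (he : Eo f e) (hea : e a = 1)
    (h0 : Tendsto (fun δ : ℝ => ∑ y : R ⧸ sp f, e y.out *
      EE R Ω δ (Ω * y.out / f)) (𝓝[>] 0) (𝓝 Ef)) (x : R) :
    Sm a (fun t => Ph L Ω f e Ef (a * c) (x + c * t)) = a * Ph L Ω f e Ef c x := by
  have : Fintype (R ⧸ sp a) := @Fintype.ofFinite _ (hfin a ha)
  have hf0 := coe_ne hf
  have ha0 := coe_ne ha
  have hc0 := coe_ne hc
  have hac : a * c ≠ 0 := mul_ne_zero ha hc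
  have hfac : IsCoprime f (a * c) := hfa.mul_right hfc
  rw [Sm_eq]
  have l1 : Tendsto (fun δ : ℝ => ∑ q : R ⧸ sp a, ∑ y : R ⧸ sp f, e y.out *
      EE R Ω δ (Ω * y.out / f + Ω * ((x + c * q.out : R) : ℂ) / ((a * c : R) : ℂ))) (𝓝[>] 0)
      (𝓝 (∑ q : R ⧸ sp a, Ph L Ω f e Ef (a * c) (x + c * q.out))) :=
    tendsto_finsetSum _ fun q _ => lim_Ph hL hf hac hfac he h0 _
  have l2 : Tendsto (fun δ : ℝ => a * ∑ y : R ⧸ sp f, e y.out *
      EE R Ω (δ / Complex.normSq a) (Ω * y.out / f + Ω * x / c)) (𝓝[>] 0)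
      (𝓝 (a * Ph L Ω f e Ef c x)) :=
    ((lim_Ph hL hf hc hfc he h0 x).comp (tendsto_scale ha)).const_mul _
  refine tendsto_nhds_unique l1 (l2.congr' ?_)
  filter_upwards [self_mem_nhdsWithin] with δ (hδ : 0 < δ)
  rw [Finset.sum_comm]
  have key : ∀ y : R ⧸ sp f, ∑ q : R ⧸ sp a, e y.out *
      EE R Ω δ (Ω * y.out / f + Ω * ((x + c * q.out : R) : ℂ) / ((a * c : R) : ℂ)) =
      (fun r : R => a * (e r * EE R Ω (δ / Complex.normSq a) (Ω * r / f + Ω * x / c)))
        (a * y.out) := by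
    intro y
    rw [← Finset.mul_sum]
    have h1 := EE_distA hL hδ a ha (Ω * y.out / f + Ω * x / (a * c))
    have h2 : ∀ q : R ⧸ sp a, EE R Ω δ (Ω * y.out / f +
        Ω * ((x + c * q.out : R) : ℂ) / ((a * c : R) : ℂ)) =
        EE R Ω δ (Ω * y.out / f + Ω * x / (a * c) + Ω * q.out / a) := by
      intro q
      congr 1
      push_cast
      field_simp
      ring
    rw [Finset.sum_congr rfl fun q _ => h2 q, h1]
    have h3 : (a : ℂ) * (Ω * y.out / f + Ω * x / (a * c)) =
        Ω * ((a * y.out : R) : ℂ) / f + Ω * x / c := by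
      push_cast
      field_simp
    rw [h3]
    show _ = a * (e (a * y.out) * _)
    rw [he.mul, hea]
    ring
  rw [Finset.sum_congr rfl fun y _ => key y]
  have h9 := sum_mul_bij hfa
    (F := fun r : R => a * (e r * EE R Ω (δ / Complex.normSq a) (Ω * r / f + Ω * x / c))) ?_
  · rw [h9, ← Finset.mul_sum]
  intro y z hyz
  show a * (e y * _) = a * (e z * _)
  rw [he.per y z hyz]
  congr 2
  apply EE_per hL
  have := (div_mem_iff hL hf (y - z)).2 hyz
  convert this using 1
  push_cast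
  ring

open Classical in
/-- one more prime -/
theorem sum_Ph (hL : IsLat L R Ω) (hfin : ∀ q : R, q ≠ 0 → Finite (R ⧸ sp q)) (hf : f ≠ 0)
    {a c : R} (hc : c ≠ 0) (ha : a ≠ 0) (hfc : IsCoprime f c) (hfa : IsCoprime f a)
    (he : Eo f e) (hea : e a = 1)
    (h0 : Tendsto (fun δ : ℝ => ∑ y : R ⧸ sp f, e y.out *
      EE R Ω δ (Ω * y.out / f)) (𝓝[>] 0) (𝓝 Ef)) {χ : R → ℂ} {ρ : ℂ}
    (hχ : ∀ x y : R, x - y ∈ sp c → χ x = χ y) (hχa : ∀ x : R, χ (a * x) = ρ * χ x) :
    Sm (a * c) (fun x => (if x ∈ sp a then 0 else χ x) * Ph L Ω f e Ef (a * c) x) =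
      (a - ρ) * Sm c (fun x => χ x * Ph L Ω f e Ef c x) := by
  have hac : a * c ≠ 0 := mul_ne_zero ha hc
  have hper : ∀ x y : R, x - y ∈ sp (a * c) → χ x * Ph L Ω f e Ef (a * c) x =
      χ y * Ph L Ω f e Ef (a * c) y := by
    intro x y h
    rw [Ph_per hL hac h, hχ x y]
    rw [Ideal.mem_span_singleton'] at h ⊢
    obtain ⟨b, hb⟩ := h
    exact ⟨b * a, by linear_combination hb⟩
  have h1 := Sm_mul hc hfin ha hper
  have h2 := Sm_div hc hfin ha hper
  have h3 : Sm (a * c) (fun x => χ x * Ph L Ω f e Ef (a * c) x) =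
      Sm (a * c) (fun x => (if x ∈ sp a then 0 else χ x) * Ph L Ω f e Ef (a * c) x) +
      Sm (a * c) (fun x => if x ∈ sp a then χ x * Ph L Ω f e Ef (a * c) x else 0) := by
    rw [← Sm_add]
    refine Finset.sum_congr rfl fun x _ => ?_
    by_cases hx : x ∈ sp a
    · simp [hx]
    · simp [hx]
  have h4 : Sm c (fun x => Sm a (fun t => χ (x + c * t) * Ph L Ω f e Ef (a * c) (x + c * t))) =
      a * Sm c (fun x => χ x * Ph L Ω f e Ef c x) := by
    rw [← Sm_mul_left]
    refine Finset.sum_congr rfl fun x _ => ?_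
    have h5 : ∀ t : R, χ (x + c * t) = χ x := by
      intro t
      refine hχ _ _ ?_
      rw [add_sub_cancel_left, Ideal.mem_span_singleton']
      exact ⟨t, mul_comm _ _⟩
    simp only [h5]
    rw [Sm_mul_left, dist_Ph hL hfin hf hc ha hfc hfa he hea h0]
    ring
  have h6 : Sm c (fun x => χ (a * x) * Ph L Ω f e Ef (a * c) (a * x)) =
      ρ * Sm c (fun x => χ x * Ph L Ω f e Ef c x) := by
    rw [← Sm_mul_left]
    refine Finset.sum_congr rfl fun x _ => ?_
    have h7 : Ph L Ω f e Ef (a * c) (a * x) = Ph L Ω f e Ef c x := by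
      have h8 : a * x ∈ sp (a * c) ↔ x ∈ sp c := by
        rw [Ideal.mem_span_singleton', Ideal.mem_span_singleton']
        constructor
        · rintro ⟨b, hb⟩
          refine ⟨b, ?_⟩
          apply mul_left_cancel₀ ha
          linear_combination hb
        · rintro ⟨b, hb⟩
          exact ⟨b, by linear_combination a * hb⟩
      by_cases hx : x ∈ sp c
      · rw [Ph_of_mem hx, Ph_of_mem (h8.2 hx)]
      · rw [Ph_of_notMem hx, Ph_of_notMem (fun h => hx (h8.1 h))]
        have ha0 := coe_ne ha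
        have hc0 := coe_ne hc
        congr 2
        push_cast
        field_simp
    show χ (a * x) * Ph L Ω f e Ef (a * c) (a * x) = ρ * (χ x * Ph L Ω f e Ef c x)
    rw [h7, hχa]
    ring
  rw [h1, h4] at h3
  rw [h2, h6] at h3
  linear_combination -h3

end Pool.Agent.Y715.Dist
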