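import Pool.Agent.Y715.Dist

/-!
# The identity for the sums over subsets of the primes
-/

set_option autoImplicit false

open Filter
open scoped Topology PeriodPair

namespace Pool.Agent.Y715.Idn

open H667R3 Pool.Agent.W192.HK Pool.Agent.TH936.CM Pool.Agent.TH936.PU
open Pool.Agent.Y715.Dist

variable {L : PeriodPair} {R : Subring ℂ} {Ω : ℂ} {ι : Type*} [DecidableEq ι]

/-- the indicator of the elements that are not in the ideal -/
noncomputable def ind (p x : R) : ℂ := open Classical in if x ∈ sp p then 0 else 1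

lemma ind_mem {p x : R} (h : x ∈ sp p) : ind p x = 0 := by
  unfold ind
  rw [if_pos h]

lemma ind_notMem {p x : R} (h : x ∉ sp p) : ind p x = 1 := by
  unfold ind
  rw [if_neg h]

lemma ind_per {p x y : R} (h : x - y ∈ sp p) : ind p x = ind p y := by
  by_cases hx : x ∈ sp p
  · have hy : y ∈ sp p := by
      have := sub_mem hx h
      rwa [sub_sub_cancel] at this
    rw [ind_mem hx, ind_mem hy]
  · have hy : y ∉ sp p := by
      intro hy
      apply hx
      have := add_mem h hy
      rwa [sub_add_cancel] at this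
    rw [ind_notMem hx, ind_notMem hy]

lemma ind_mul {p a : R} (h : IsCoprime a p) (x : R) : ind p (a * x) = ind p x := by
  have h1 : a * x ∈ sp p ↔ x ∈ sp p := by
    constructor
    · intro h2
      obtain ⟨u, w, huw⟩ := h
      rw [Ideal.mem_span_singleton'] at h2 ⊢
      obtain ⟨b, hb⟩ := h2
      exact ⟨u * b + w * x, by linear_combination u * hb + x * huw⟩
    · exact fun h2 => Ideal.mul_mem_left _ _ h2
  by_cases hx : x ∈ sp p
  · rw [ind_mem hx, ind_mem (h1.2 hx)]
  · rw [ind_notMem hx, ind_notMem fun h2 => hx (h1.1 h2)]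

/-- the product of the primes -/
def cc (π : ι → R) (T : Finset ι) : R := ∏ i ∈ T, π i

/-- the product of the characters -/
noncomputable def XT (X : ι → R → ℂ) (T : Finset ι) (x : R) : ℂ := ∏ i ∈ T, X i x

/-- the family of the primes and characters -/
structure Fm (π : ι → R) (X : ι → R → ℂ) : Prop where
  ne : ∀ i, π i ≠ 0
  cop : ∀ i j, i ≠ j → IsCoprime (π i) (π j)
  per : ∀ i x y, x - y ∈ sp (π i) → X i x = X i y
  mul : ∀ i x y, X i (x * y) = X i x * X i y
  zero : ∀ i x, x ∈ sp (π i) → X i x = 0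
  sum : ∀ i, Sm (π i) (X i) = 0

variable {π : ι → R} {X : ι → R → ℂ}

lemma sp_mul_le {a c x : R} (h : x ∈ sp (a * c)) : x ∈ sp c := by
  rw [Ideal.mem_span_singleton'] at h ⊢
  obtain ⟨b, hb⟩ := h
  exact ⟨b * a, by linear_combination hb⟩

lemma sp_mul_le' {a c x : R} (h : x ∈ sp (a * c)) : x ∈ sp a := by
  rw [mul_comm] at h
  exact sp_mul_le h

lemma cc_insert {i : ι} {T : Finset ι} (h : i ∉ T) : cc π (insert i T) = π i * cc π T := by
  unfold cc
  rw [Finset.prod_insert h]

lemma cc_mem {i : ι} {T : Finset ι} (h : i ∈ T) {x : R} (hx : x ∈ sp (cc π T)) :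
    x ∈ sp (π i) := by
  have h1 : cc π T = π i * cc π (T.erase i) := by
    rw [← cc_insert (Finset.notMem_erase i T), Finset.insert_erase h]
  rw [h1] at hx
  exact sp_mul_le' hx

lemma Fm.cc_ne (h : Fm π X) (T : Finset ι) : cc π T ≠ 0 :=
  Finset.prod_ne_zero_iff.2 fun i _ => h.ne i

lemma Fm.cop_cc (h : Fm π X) {i : ι} {T : Finset ι} (hi : i ∉ T) : IsCoprime (π i) (cc π T) :=
  IsCoprime.prod_right fun j hj => h.cop i j (fun e => hi (e ▸ hj))

lemma Fm.cop_f {f : R} (h : ∀ i, IsCoprime f (π i)) (T : Finset ι) : IsCoprime f (cc π T) :=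
  IsCoprime.prod_right fun j _ => h j

lemma XT_per (h : Fm π X) {T S : Finset ι} (hTS : T ⊆ S) {x y : R} (hxy : x - y ∈ sp (cc π S)) :
    XT X T x = XT X T y :=
  Finset.prod_congr rfl fun i hi => h.per i x y (cc_mem (hTS hi) hxy)

lemma XT_mul (h : Fm π X) (T : Finset ι) (x y : R) : XT X T (x * y) = XT X T x * XT X T y := by
  unfold XT
  rw [← Finset.prod_mul_distrib]
  exact Finset.prod_congr rfl fun i _ => h.mul i x y

variable {f : R} [Fintype (R ⧸ sp f)] {e : R → ℂ} {Ef : ℂ}

/-- the sums -/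
noncomputable def SP (L : PeriodPair) (Ω : ℂ) (f : R) [Fintype (R ⧸ sp f)] (e : R → ℂ) (Ef : ℂ)
    (π : ι → R) (X : ι → R → ℂ) (T : Finset ι) : ℂ :=
  Sm (cc π T) (fun x => XT X T x * Ph L Ω f e Ef (cc π T) x)

/-- the function attached to two disjoint subsets -/
noncomputable def YY (π : ι → R) (X : ι → R → ℂ) (T U : Finset ι) (x : R) : ℂ :=
  XT X T x * ∏ i ∈ U, ind (π i) x

theorem sum_YY (hL : IsLat L R Ω) (hfin : ∀ q : R, q ≠ 0 → Finite (R ⧸ sp q)) (hf : f ≠ 0)
    (h : Fm π X) (hfπ : ∀ i, IsCoprime f (π i)) (he : Eo f e) (heπ : ∀ i, e (π i) = 1)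
    (h0 : Tendsto (fun δ : ℝ => ∑ y : R ⧸ sp f, e y.out *
      EE R Ω δ (Ω * y.out / f)) (𝓝[>] 0) (𝓝 Ef)) (T U : Finset ι) (hTU : Disjoint T U) :
    Sm (cc π (T ∪ U)) (fun x => YY π X T U x * Ph L Ω f e Ef (cc π (T ∪ U)) x) =
      (∏ i ∈ U, ((π i : ℂ) - XT X T (π i))) * SP L Ω f e Ef π X T := by
  classical
  induction U using Finset.induction_on with
  | empty =>
    rw [Finset.union_empty, Finset.prod_empty, one_mul]
    unfold SP YY
    simp only [Finset.prod_empty, mul_one]
  | insert j U hj ih =>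
    have hjT : j ∉ T := fun h1 => Finset.disjoint_left.1 hTU h1 (Finset.mem_insert_self j U)
    have hTU' : Disjoint T U := Finset.disjoint_of_subset_right (Finset.subset_insert _ _) hTU
    have hjTU : j ∉ T ∪ U := by
      rw [Finset.mem_union]
      tauto
    rw [Finset.union_insert, cc_insert hjTU, Finset.prod_insert hj, mul_assoc, ← ih hTU']
    have h1 := sum_Ph hL hfin hf (h.cc_ne (T ∪ U)) (h.ne j) (Fm.cop_f hfπ (T ∪ U)) (hfπ j) he
      (heπ j) h0 (χ := YY π X T U) (ρ := XT X T (π j)) ?_ ?_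
    · rw [← h1]
      refine Finset.sum_congr rfl fun x _ => ?_
      beta_reduce
      congr 1
      unfold YY
      rw [Finset.prod_insert hj]
      by_cases hx : x ∈ sp (π j)
      · rw [ind_mem hx, if_pos hx]
        ring
      · rw [ind_notMem hx, if_neg hx]
        ring
    · intro x y hxy
      unfold YY
      rw [XT_per h Finset.subset_union_left hxy]
      congr 1
      exact Finset.prod_congr rfl fun i hi =>
        ind_per (cc_mem (Finset.mem_union_right T hi) hxy)
    · intro x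
      unfold YY
      rw [XT_mul h]
      have h2 : ∏ i ∈ U, ind (π i) (π j * x) = ∏ i ∈ U, ind (π i) x :=
        Finset.prod_congr rfl fun i hi => ind_mul (h.cop j i fun e => hj (e ▸ hi)) x
      rw [h2]
      ring

/-- **The identity.** -/
theorem main (hL : IsLat L R Ω) (hfin : ∀ q : R, q ≠ 0 → Finite (R ⧸ sp q)) (hf : f ≠ 0)
    (h : Fm π X) (hfπ : ∀ i, IsCoprime f (π i)) (he : Eo f e) (heπ : ∀ i, e (π i) = 1)
    (h0 : Tendsto (fun δ : ℝ => ∑ y : R ⧸ sp f, e y.out *
      EE R Ω δ (Ω * y.out / f)) (𝓝[>] 0) (𝓝 Ef)) (S : Finset ι) :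
    Sm (cc π S) (fun x => (∏ i ∈ S, (ind (π i) x - X i x)) * Ph L Ω f e Ef (cc π S) x) =
      ∑ T ∈ S.powerset, (-1) ^ T.card * ((∏ i ∈ S \ T, ((π i : ℂ) - XT X T (π i))) *
        SP L Ω f e Ef π X T) := by
  classical
  have h1 : ∀ x : R, ∏ i ∈ S, (ind (π i) x - X i x) =
      ∑ T ∈ S.powerset, (-1) ^ T.card * YY π X T (S \ T) x := by
    intro x
    have h2 : ∀ i ∈ S, ind (π i) x - X i x = -X i x + ind (π i) x := fun i _ => by ring
    rw [Finset.prod_congr rfl h2, Finset.prod_add]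
    refine Finset.sum_congr rfl fun T _ => ?_
    unfold YY XT
    rw [Finset.prod_neg]
    ring
  have h3 : Sm (cc π S) (fun x => (∏ i ∈ S, (ind (π i) x - X i x)) *
      Ph L Ω f e Ef (cc π S) x) =
      ∑ T ∈ S.powerset, (-1) ^ T.card *
        Sm (cc π S) (fun x => YY π X T (S \ T) x * Ph L Ω f e Ef (cc π S) x) := by
    unfold Sm
    simp only [h1, Finset.sum_mul, Finset.mul_sum]
    rw [Finset.sum_comm]
    refine Finset.sum_congr rfl fun T _ => Finset.sum_congr rfl fun x _ => by ring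
  rw [h3]
  refine Finset.sum_congr rfl fun T hT => ?_
  rw [Finset.mem_powerset] at hT
  have h4 := sum_YY hL hfin hf h hfπ he heπ h0 T (S \ T) Finset.disjoint_sdiff
  rw [Finset.union_sdiff_of_subset hT] at h4
  rw [h4]

lemma sp_one_eq : sp (1 : R) = ⊤ := Ideal.span_singleton_one

lemma Sm_one (hfin : ∀ q : R, q ≠ 0 → Finite (R ⧸ sp q)) (F : R → ℂ)
    (hF : ∀ x y : R, F x = F y) : Sm (1 : R) F = F 0 := by
  have : Fintype (R ⧸ sp (1 : R)) := @Fintype.ofFinite _ (hfin 1 one_ne_zero)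
  have : Subsingleton (R ⧸ sp (1 : R)) := by
    rw [Ideal.Quotient.subsingleton_iff, sp_one_eq]
  rw [Sm_eq, Fintype.sum_subsingleton _ 0]
  exact hF _ _

lemma SP_empty (hfin : ∀ q : R, q ≠ 0 → Finite (R ⧸ sp q)) : SP L Ω f e Ef π X ∅ = Ef := by
  unfold SP
  have h1 : cc π ∅ = 1 := Finset.prod_empty
  have h2 : ∀ x : R, x ∈ sp (1 : R) := fun x => by
    rw [sp_one_eq]
    exact Submodule.mem_top
  rw [h1, Sm_one hfin]
  · rw [Ph_of_mem (h2 0)]
    unfold XT
    rw [Finset.prod_empty, one_mul]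
  · intro x y
    rw [Ph_of_mem (h2 x), Ph_of_mem (h2 y)]
    unfold XT
    rw [Finset.prod_empty, Finset.prod_empty]

/-- products of functions of the residues modulo the primes -/
theorem Sm_prod (hfin : ∀ q : R, q ≠ 0 → Finite (R ⧸ sp q)) (hne : ∀ i, π i ≠ 0)
    (hcop : ∀ i j, i ≠ j → IsCoprime (π i) (π j)) {g : ι → R → ℂ}
    (hg : ∀ i x y, x - y ∈ sp (π i) → g i x = g i y) (S : Finset ι) :
    Sm (cc π S) (fun x => ∏ i ∈ S, g i x) = ∏ i ∈ S, Sm (π i) (g i) := by
  classical
  induction S using Finset.induction_on with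
  | empty =>
    rw [Finset.prod_empty]
    have h1 : cc π ∅ = 1 := Finset.prod_empty
    rw [h1, Sm_one hfin]
    · rw [Finset.prod_empty]
    · intro x y
      rw [Finset.prod_empty, Finset.prod_empty]
  | insert j S hj ih =>
    have hc : cc π S ≠ 0 := Finset.prod_ne_zero_iff.2 fun i _ => hne i
    rw [cc_insert hj, Sm_mul hc hfin (hne j), Finset.prod_insert hj, ← ih]
    · have : Fintype (R ⧸ sp (π j)) := @Fintype.ofFinite _ (hfin _ (hne j))
      have h2 : ∀ x : R, Sm (π j) (fun t => ∏ i ∈ insert j S, g i (x + cc π S * t)) =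
          Sm (π j) (g j) * ∏ i ∈ S, g i x := by
        intro x
        have h3 : ∀ t : R, ∏ i ∈ insert j S, g i (x + cc π S * t) =
            (∏ i ∈ S, g i x) * g j (x + cc π S * t) := by
          intro t
          rw [Finset.prod_insert hj, mul_comm]
          congr 1
          refine Finset.prod_congr rfl fun i hi => hg i _ _ ?_
          rw [add_sub_cancel_left]
          exact cc_mem hi (Ideal.mul_mem_right _ _ (Ideal.mem_span_singleton_self _))
        simp only [h3]
        rw [Sm_mul_left, mul_comm]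
        congr 1
        have hcop' : IsCoprime (π j) (cc π S) :=
          IsCoprime.prod_right fun i hi => hcop j i fun e => hj (e ▸ hi)
        have hg2 : ∀ y z : R, y - z ∈ sp (π j) → g j (x + y) = g j (x + z) := fun y z hyz =>
          hg j _ _ (by rwa [add_sub_add_left_eq_sub])
        rw [← Sm_shift (hfin _ (hne j)) x (hg j)]
        rw [Sm_eq, Sm_eq, ← sum_mul_bij hcop' (F := fun y => g j (x + y)) hg2]
      simp only [h2]
      rw [Sm_mul_left]
    · intro x y hxy
      rw [← cc_insert hj] at hxy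
      exact Finset.prod_congr rfl fun i hi => hg i x y (cc_mem hi hxy)

end Pool.Agent.Y715.Idn
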