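import Mathlib

/-!
# The `2`-adic valuation of the values of `℘` at points of odd order, abstract form
-/

set_option autoImplicit false

namespace Pool.Agent.Y715.Two

open Complex (I)

variable {Γ : Type*} [LinearOrderedCommGroupWithZero Γ] {v : Valuation ℂ Γ}

lemma v_nat (n : ℕ) : v (n : ℂ) ≤ 1 := by
  induction n with
  | zero => simp
  | succ n ih =>
    push_cast
    exact (v.map_add _ _).trans (max_le ih (by simp))

lemma v_int (n : ℤ) : v (n : ℂ) ≤ 1 := by
  obtain ⟨m, rfl | rfl⟩ := n.eq_nat_or_neg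
  · exact_mod_cast v_nat m
  · push_cast
    rw [v.map_neg]
    exact v_nat m

lemma v_I : v I = 1 := by
  have h : v I ^ 4 = 1 := by rw [← map_pow, Complex.I_pow_four, map_one]
  rcases lt_trichotomy (v I) 1 with h1 | h1 | h1
  · exact absurd h (pow_lt_one' h1 (by norm_num)).ne
  · exact h1
  · exact absurd h (one_lt_pow' h1 (by norm_num)).ne'

lemma v_gauss (a b : ℤ) : v (a + b * I) ≤ 1 := by
  refine (v.map_add _ _).trans (max_le (v_int a) ?_)
  rw [map_mul, v_I, mul_one]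
  exact v_int b

lemma sq_two : v (1 + I) * v (1 + I) = v 2 := by
  rw [← map_mul]
  have : (1 + I) * (1 + I) = 2 * I := by linear_combination Complex.I_sq
  rw [this, map_mul, v_I, mul_one]

lemma two_ne : v (2 : ℂ) ≠ 0 := by
  rw [Ne, map_eq_zero]
  norm_num

lemma p_ne : v (1 + I) ≠ 0 := by
  intro h
  have := sq_two (v := v)
  rw [h, mul_zero] at this
  exact two_ne this.symm

lemma p_pos : 0 < v (1 + I) := zero_lt_iff.2 p_ne

variable (h2 : v 2 < 1)

include h2 in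
lemma p_lt : v (1 + I) < 1 := by
  by_contra h
  push Not at h
  have h1 : 1 ≤ v (1 + I) * v (1 + I) := by
    calc (1 : Γ) = 1 * 1 := (one_mul 1).symm
      _ ≤ _ := mul_le_mul' h h
  rw [sq_two] at h1
  exact absurd h2 (not_lt.2 h1)

/-- elements congruent to one modulo `1 + I` -/
lemma v_unit {a : ℂ} (ha : v (a - 1) < 1) : v a = 1 := by
  have h : a = 1 + (a - 1) := by ring
  rw [h]
  exact v.map_one_add_of_lt ha

include h2 in
lemma v_odd (a b : ℤ) : v ((1 + 2 * a : ℤ) + (2 * b : ℤ) * I : ℂ) = 1 := by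
  apply v_unit
  have : ((1 + 2 * a : ℤ) + (2 * b : ℤ) * I : ℂ) - 1 = 2 * (a + b * I) := by
    push_cast
    ring
  rw [this, map_mul]
  calc v 2 * v (a + b * I) ≤ v 2 * 1 := mul_le_mul' le_rfl (v_gauss a b)
    _ < 1 := by rwa [mul_one]

lemma v_mul_le_of {a b : ℂ} {g : Γ} (ha : v a ≤ g) (hb : v b ≤ 1) : v (a * b) ≤ g := by
  rw [map_mul]
  calc v a * v b ≤ g * 1 := mul_le_mul' ha hb
    _ = g := mul_one g

/-- the data: a finite set of complex numbers with a relation -/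
structure Dat {ι : Type*} (X : ι → ℂ) (s : ι → ι) : Prop where
  fin : (Set.range X).Finite
  rel : ∀ a, X a ^ 2 - 1 = 2 * I * X a * X (s a)

variable {ι : Type*} {X : ι → ℂ} {s : ι → ι} (h : Dat X s)

lemma exists_max [Nonempty ι] {Y : ι → ℂ} (hf : (Set.range Y).Finite) :
    ∃ a, ∀ b, v (Y b) ≤ v (Y a) := by
  obtain ⟨y, ⟨a, rfl⟩, hy⟩ := Set.exists_max_image (Set.range Y) v hf (Set.range_nonempty Y)
  exact ⟨a, fun b => hy _ ⟨b, rfl⟩⟩

include h2 h in
lemma X_le (b : ι) : v (X b) ≤ 1 := by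
  have : Nonempty ι := ⟨b⟩
  obtain ⟨a, ha⟩ := exists_max (v := v) h.fin
  refine (ha b).trans ?_
  by_contra hcon
  push Not at hcon
  have h1 : v (X a ^ 2 - 1) = v (X a) ^ 2 := by
    have : v (X a ^ 2) = v (X a) ^ 2 := map_pow _ _ _
    rw [v.map_sub_eq_of_lt_left, this]
    rw [this, map_one]
    exact one_lt_pow' hcon two_ne_zero
  have h3 : v (2 * I * X a * X (s a)) ≤ v 2 * v (X a) ^ 2 := by
    rw [map_mul, map_mul, map_mul, v_I, mul_one, mul_assoc, pow_two]
    exact mul_le_mul' le_rfl (mul_le_mul' le_rfl (ha _))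
  rw [← h.rel, h1] at h3
  have h4 : 0 < v (X a) ^ 2 := pow_pos (lt_trans zero_lt_one hcon) 2
  have h5 : v 2 * v (X a) ^ 2 < 1 * v (X a) ^ 2 := mul_lt_mul_of_pos_right h2 h4
  rw [one_mul] at h5
  exact absurd h5 (not_lt.2 h3)

include h2 h in
lemma X_one (b : ι) : v (X b) = 1 := by
  refine le_antisymm (X_le h2 h b) ?_
  by_contra hcon
  push Not at hcon
  have h1 : v (X b ^ 2 - 1) = 1 := by
    rw [v.map_sub_swap]
    refine v.map_one_sub_of_lt ?_
    rw [map_pow]
    exact pow_lt_one' hcon two_ne_zero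
  rw [h.rel, map_mul, map_mul, map_mul, v_I, mul_one] at h1
  have h3 : v 2 * v (X b) * v (X (s b)) ≤ v 2 * 1 * 1 :=
    mul_le_mul' (mul_le_mul' le_rfl (X_le h2 h b)) (X_le h2 h _)
  rw [h1, mul_one, mul_one] at h3
  exact absurd h2 (not_lt.2 h3)

/-- the coordinate -/
noncomputable def ga (X : ι → ℂ) (a : ι) : ℂ := (X a - 2 - I) / (1 + I)

lemma one_add_I_ne : (1 + I : ℂ) ≠ 0 := by
  intro h
  have := congrArg Complex.re h
  simp at this

lemma X_eq (a : ι) : X a = 2 + I + (1 + I) * ga X a := by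
  unfold ga
  rw [mul_div_cancel₀ _ one_add_I_ne]
  ring

include h in
lemma ga_rel (a : ι) : ga X a ^ 2 = (1 + 5 * I) + (-2 + 4 * I) * ga X a +
    (1 + 3 * I) * ga X (s a) + 2 * I * ga X a * ga X (s a) := by
  have h1 := h.rel a
  rw [X_eq (X := X) a, X_eq (X := X) (s a)] at h1
  set g := ga X a
  set g' := ga X (s a)
  have hI := Complex.I_sq
  have h3 : (2 * I) * (g ^ 2 - ((1 + 5 * I) + (-2 + 4 * I) * g + (1 + 3 * I) * g' +
      2 * I * g * g')) = 0 := by
    linear_combination h1 + (-3 + 2 * I + 2 * I * g + 2 * I * g * g' + 2 * I * g' - 4 * g -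
      g ^ 2) * hI
  rcases mul_eq_zero.1 h3 with h4 | h4
  · exfalso
    rcases mul_eq_zero.1 h4 with h5 | h5
    · norm_num at h5
    · exact Complex.I_ne_zero h5
  · linear_combination h4

lemma v_five : v (1 + 5 * I) ≤ v (1 + I) := by
  have : (1 + 5 * I : ℂ) = (1 + I) * ((3 : ℤ) + (2 : ℤ) * I) := by
    push_cast
    linear_combination (-2 : ℂ) * Complex.I_sq
  rw [this]
  exact v_mul_le_of le_rfl (v_gauss 3 2)

include h2 in
lemma v_five_eq : v (1 + 5 * I) = v (1 + I) := by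
  have : (1 + 5 * I : ℂ) = (1 + I) * ((1 + 2 * 1 : ℤ) + (2 * 1 : ℤ) * I) := by
    push_cast
    linear_combination (-2 : ℂ) * Complex.I_sq
  rw [this, map_mul, v_odd h2, mul_one]

lemma v_three : v (1 + 3 * I) ≤ v (1 + I) := by
  have : (1 + 3 * I : ℂ) = (1 + I) * ((2 : ℤ) + (1 : ℤ) * I) := by
    push_cast
    linear_combination (-1 : ℂ) * Complex.I_sq
  rw [this]
  exact v_mul_le_of le_rfl (v_gauss 2 1)

lemma v_four' : v (-2 + 4 * I) ≤ v 2 := by
  have : (-2 + 4 * I : ℂ) = 2 * ((-1 : ℤ) + (2 : ℤ) * I) := by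
    push_cast
    ring
  rw [this]
  exact v_mul_le_of le_rfl (v_gauss _ _)

lemma v_twoI : v (2 * I) = v 2 := by
  rw [map_mul, v_I, mul_one]

include h2 in
lemma two_lt_p : v 2 < v (1 + I) := by
  rw [← sq_two]
  calc v (1 + I) * v (1 + I) < v (1 + I) * 1 := mul_lt_mul_of_pos_left (p_lt h2) p_pos
    _ = v (1 + I) := mul_one _

lemma ga_fin (hf : (Set.range X).Finite) : (Set.range (ga X)).Finite := by
  have : Set.range (ga X) = (fun z => (z - 2 - I) / (1 + I)) '' Set.range X := by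
    ext z
    constructor
    · rintro ⟨a, rfl⟩
      exact ⟨X a, ⟨a, rfl⟩, rfl⟩
    · rintro ⟨_, ⟨a, rfl⟩, rfl⟩
      exact ⟨a, rfl⟩
  rw [this]
  exact hf.image _

lemma add4 {a b c d : ℂ} {g : Γ} (ha : v a ≤ g) (hb : v b ≤ g) (hc : v c ≤ g) (hd : v d ≤ g) :
    v (a + b + c + d) ≤ g :=
  v.map_add_le (v.map_add_le (v.map_add_le ha hb) hc) hd

lemma add4' {a b c d : ℂ} {g : Γ} (ha : v a < g) (hb : v b < g) (hc : v c < g) (hd : v d < g) :
    v (a + b + c + d) < g :=
  v.map_add_lt (v.map_add_lt (v.map_add_lt ha hb) hc) hd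

include h2 h in
lemma ga_le (b : ι) : v (ga X b) ≤ 1 := by
  have : Nonempty ι := ⟨b⟩
  obtain ⟨a, ha⟩ := exists_max (v := v) (ga_fin h.fin)
  refine (ha b).trans ?_
  by_contra hcon
  push Not at hcon
  set m := v (ga X a) with hm
  have hm0 : 0 < m := lt_trans zero_lt_one hcon
  have h1 := congrArg v (ga_rel h a)
  rw [map_pow, ← hm] at h1
  refine absurd h1 (ne_of_gt ?_)
  have hp := p_lt h2
  have hmm : m < m ^ 2 := by
    rw [pow_two]
    calc m = 1 * m := (one_mul m).symm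
      _ < m * m := mul_lt_mul_of_pos_right hcon hm0
  refine add4' ?_ ?_ ?_ ?_
  · exact (v_five.trans hp.le).trans_lt (hcon.trans hmm)
  · rw [map_mul]
    calc v (-2 + 4 * I) * v (ga X a) ≤ 1 * m := mul_le_mul' (v_four'.trans h2.le) le_rfl
      _ = m := one_mul m
      _ < m ^ 2 := hmm
  · rw [map_mul]
    calc v (1 + 3 * I) * v (ga X (s a)) ≤ 1 * m := mul_le_mul' (v_three.trans hp.le) (ha _)
      _ = m := one_mul m
      _ < m ^ 2 := hmm
  · rw [map_mul, map_mul, v_twoI]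
    calc v 2 * v (ga X a) * v (ga X (s a)) ≤ v 2 * m * m := mul_le_mul' le_rfl (ha _)
      _ = v 2 * m ^ 2 := by rw [pow_two, mul_assoc]
      _ < 1 * m ^ 2 := mul_lt_mul_of_pos_right h2 (pow_pos hm0 2)
      _ = m ^ 2 := one_mul _

include h2 h in
lemma ga_lt (a : ι) : v (ga X a) < 1 := by
  have h1 := congrArg v (ga_rel h a)
  have hp := p_lt h2
  have h3 : v ((1 + 5 * I) + (-2 + 4 * I) * ga X a +
    (1 + 3 * I) * ga X (s a) + 2 * I * ga X a * ga X (s a)) ≤ v (1 + I) := by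
    refine add4 v_five ?_ ?_ ?_
    · exact v_mul_le_of (v_four'.trans (two_lt_p h2).le) (ga_le h2 h a)
    · exact v_mul_le_of v_three (ga_le h2 h _)
    · refine v_mul_le_of (v_mul_le_of ?_ (ga_le h2 h a)) (ga_le h2 h _)
      rw [v_twoI]
      exact (two_lt_p h2).le
  rw [← h1, map_pow] at h3
  by_contra hcon
  push Not at hcon
  have h4 : 1 ≤ v (ga X a) ^ 2 := one_le_pow₀ hcon
  exact absurd hp (not_lt.2 (h4.trans h3))

include h2 h in
lemma ga_sq (a : ι) : v (ga X a) ^ 2 = v (1 + I) := by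
  rw [← map_pow, ga_rel h a]
  have e : (1 + 5 * I) + (-2 + 4 * I) * ga X a + (1 + 3 * I) * ga X (s a) +
      2 * I * ga X a * ga X (s a) = (1 + 5 * I) + ((-2 + 4 * I) * ga X a +
      (1 + 3 * I) * ga X (s a) + 2 * I * ga X a * ga X (s a)) := by ring
  rw [e, v.map_add_eq_of_lt_left, v_five_eq h2]
  rw [v_five_eq h2]
  refine v.map_add_lt (v.map_add_lt ?_ ?_) ?_
  · exact (v_mul_le_of v_four' (ga_le h2 h a)).trans_lt (two_lt_p h2)
  · rw [map_mul]
    calc v (1 + 3 * I) * v (ga X (s a)) ≤ v (1 + I) * v (ga X (s a)) := mul_le_mul' v_three le_rfl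
      _ < v (1 + I) * 1 := mul_lt_mul_of_pos_left (ga_lt h2 h _) p_pos
      _ = v (1 + I) := mul_one _
  · refine (v_mul_le_of (v_mul_le_of (g := v 2) ?_ (ga_le h2 h a)) (ga_le h2 h _)).trans_lt
      (two_lt_p h2)
    rw [v_twoI]

include h2 h in
/-- the valuation of `1 + X²` -/
lemma one_add_sq (a : ι) : v (1 + X a ^ 2) = v (1 + I) ^ 3 := by
  have hp := p_lt h2
  have e : 1 + X a ^ 2 = 2 * I * ga X a ^ 2 + ((4 + 4 * I) + 2 * (1 + 3 * I) * ga X a) := by
    have hI := Complex.I_sq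
    rw [X_eq (X := X) a]
    set g := ga X a
    linear_combination (1 + 2 * g + g ^ 2) * hI
  have e1 : v (2 * I * ga X a ^ 2) = v (1 + I) ^ 3 := by
    rw [map_mul, v_twoI, map_pow, ga_sq h2 h, ← sq_two]
    simp only [pow_succ, pow_zero, one_mul, mul_assoc]
  rw [e, v.map_add_eq_of_lt_left, e1]
  rw [e1]
  have h3 : v (1 + I) ^ 3 = v 2 * v (1 + I) := by
    rw [← sq_two]
    simp only [pow_succ, pow_zero, one_mul, mul_assoc]
  rw [h3]
  refine v.map_add_lt ?_ ?_
  · have : (4 + 4 * I : ℂ) = 2 * (2 * (1 + I)) := by ring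
    rw [this, map_mul, map_mul]
    refine mul_lt_mul_of_pos_left ?_ (zero_lt_iff.2 two_ne)
    calc v 2 * v (1 + I) < 1 * v (1 + I) := mul_lt_mul_of_pos_right h2 p_pos
      _ = v (1 + I) := one_mul _
  · rw [map_mul, map_mul, mul_assoc]
    refine mul_lt_mul_of_pos_left ?_ (zero_lt_iff.2 two_ne)
    calc v (1 + 3 * I) * v (ga X a) ≤ v (1 + I) * v (ga X a) := mul_le_mul' v_three le_rfl
      _ < v (1 + I) * 1 := mul_lt_mul_of_pos_left (ga_lt h2 h _) p_pos
      _ = v (1 + I) := mul_one _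

include h2 h in
/-- the valuation of `X² - 1` -/
lemma sq_sub_one (a : ι) : v (X a ^ 2 - 1) = v 2 := by
  rw [h.rel, map_mul, map_mul, v_twoI, X_one h2 h, X_one h2 h, mul_one, mul_one]

include h2 h in
/-- the differences of the coordinates -/
lemma ga_sub (a b : ι) : v (ga X a - ga X b) ≤ v (1 + I) := by
  have hne : Nonempty (ι × ι) := ⟨(a, b)⟩
  have hp := p_lt h2
  have hfin : (Set.range (fun q : ι × ι => ga X q.1 - ga X q.2)).Finite := by
    refine ((ga_fin h.fin).image2 (fun x y => x - y) (ga_fin h.fin)).subset ?_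
    rintro _ ⟨q, rfl⟩
    exact ⟨ga X q.1, ⟨q.1, rfl⟩, ga X q.2, ⟨q.2, rfl⟩, rfl⟩
  obtain ⟨q, hq⟩ := exists_max (v := v) hfin
  refine (hq (a, b)).trans ?_
  obtain ⟨c, d⟩ := q
  set m := v (ga X c - ga X d) with hm
  have hq' : ∀ x y, v (ga X x - ga X y) ≤ m := fun x y => hq (x, y)
  show m ≤ v (1 + I)
  by_contra hcon
  push Not at hcon
  have hm0 : 0 < m := lt_trans p_pos hcon
  -- the sum
  have h3 : v (ga X c + ga X d) = m := by
    have e : ga X c + ga X d = (ga X c - ga X d) + 2 * ga X d := by ring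
    rw [e, v.map_add_eq_of_lt_left]
    rw [← hm]
    refine lt_of_le_of_lt (v_mul_le_of le_rfl (ga_le h2 h d)) ?_
    exact (two_lt_p h2).trans hcon
  have e1 : (ga X c - ga X d) * (ga X c + ga X d) =
      (-2 + 4 * I) * (ga X c - ga X d) + (1 + 3 * I) * (ga X (s c) - ga X (s d)) +
      2 * I * ga X c * (ga X (s c) - ga X (s d)) + 2 * I * ga X (s d) * (ga X c - ga X d) := by
    linear_combination ga_rel h c - ga_rel h d
  have e2 := congrArg v e1
  rw [map_mul, h3, ← hm] at e2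
  have h4 : v ((-2 + 4 * I) * (ga X c - ga X d) + (1 + 3 * I) * (ga X (s c) - ga X (s d)) +
      2 * I * ga X c * (ga X (s c) - ga X (s d)) + 2 * I * ga X (s d) * (ga X c - ga X d)) ≤
      v (1 + I) * m := by
    refine add4 ?_ ?_ ?_ ?_
    · rw [map_mul]
      exact mul_le_mul' (v_four'.trans (two_lt_p h2).le) le_rfl
    · rw [map_mul]
      exact mul_le_mul' v_three (hq' _ _)
    · rw [map_mul]
      refine mul_le_mul' (v_mul_le_of ?_ (ga_le h2 h c)) (hq' _ _)
      rw [v_twoI]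
      exact (two_lt_p h2).le
    · rw [map_mul]
      refine mul_le_mul' (v_mul_le_of ?_ (ga_le h2 h _)) le_rfl
      rw [v_twoI]
      exact (two_lt_p h2).le
  rw [← e2] at h4
  exact absurd (mul_lt_mul_of_pos_right hcon hm0) (not_lt.2 h4)

/-- the function -/
noncomputable def FF (z : ℂ) : ℂ := (z ^ 2 - 1) / (1 + z ^ 2)

include h2 h in
lemma FF_val (a : ι) : v (FF (X a)) * v (1 + I) = 1 := by
  unfold FF
  have h3 : v (1 + I) ^ 3 = v 2 * v (1 + I) := by
    rw [← sq_two]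
    simp only [pow_succ, pow_zero, one_mul, mul_assoc]
  rw [map_div₀, sq_sub_one h2 h, one_add_sq h2 h, h3, div_mul_eq_mul_div]
  exact div_self (mul_ne_zero two_ne p_ne)

include h2 h in
lemma ne_zero (a : ι) : 1 + X a ^ 2 ≠ 0 := by
  intro h3
  have h1 := one_add_sq h2 h a
  rw [h3, map_zero] at h1
  exact p_ne ((pow_eq_zero_iff (by norm_num : (3 : ℕ) ≠ 0)).1 h1.symm)

include h2 h in
/-- the differences are integral -/
theorem FF_sub (a b : ι) : v (FF (X a) - FF (X b)) ≤ 1 := by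
  have ha := ne_zero h2 h a
  have hb := ne_zero h2 h b
  have e : FF (X a) - FF (X b) = 2 * ((X a - X b) * (X a + X b)) /
      ((1 + X a ^ 2) * (1 + X b ^ 2)) := by
    unfold FF
    field_simp
    ring
  have h3 : v (X a - X b) ≤ v 2 := by
    have e1 : X a - X b = (1 + I) * (ga X a - ga X b) := by
      rw [X_eq (X := X) a, X_eq (X := X) b]
      ring
    rw [e1, map_mul, ← sq_two]
    exact mul_le_mul' le_rfl (ga_sub h2 h a b)
  have h4 : v (X a + X b) ≤ v 2 := by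
    have e1 : X a + X b = (X a - X b) + 2 * X b := by ring
    rw [e1]
    exact v.map_add_le h3 (v_mul_le_of le_rfl (X_one h2 h b).le)
  rw [e, map_div₀, map_mul, map_mul, map_mul, one_add_sq h2 h, one_add_sq h2 h]
  have hp0 : v (1 + I) ^ 3 * v (1 + I) ^ 3 ≠ 0 := mul_ne_zero (pow_ne_zero 3 p_ne) (pow_ne_zero 3 p_ne)
  rw [div_le_one₀ (zero_lt_iff.2 hp0)]
  calc v 2 * (v (X a - X b) * v (X a + X b)) ≤ v 2 * (v 2 * v 2) :=
        mul_le_mul' le_rfl (mul_le_mul' h3 h4)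
    _ = v (1 + I) ^ 3 * v (1 + I) ^ 3 := by
        rw [← sq_two]
        simp only [pow_succ, pow_zero, one_mul, mul_assoc]

end Pool.Agent.Y715.Two
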